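import Mathlib

/-!
# Averaging of a homogeneous cocycle (PROJECT FQ, note 4122, step (3))

A group `Z` acts on `X`, `σ` is a permutation of `X` commuting with `Z`, and for every `x` the set of
all `z` with `z x = σ ^ k x` for some `k` is finite with a number of elements dividing `D ≠ 0`. Then
every homogeneous cocycle of `Z` gives a homogeneous cocycle on `X`, invariant under `Z` and `σ`, whose
restriction to an orbit is `D ^ (n + 1)` times the given one up to an invariant coboundary.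
-/

open Finset

namespace FQ

/-- homogeneous cocycle identity in degree `n` for functions on `(n + 1)`-tuples of `X` -/
def IsCoc {X L : Type*} [CommRing L] {n : ℕ} (F : (Fin (n + 1) → X) → L) : Prop :=
  ∀ x : Fin (n + 2) → X, ∑ i : Fin (n + 2), (-1 : L) ^ (i : ℕ) * F (fun j => x (i.succAbove j)) = 0

section prism

variable {Z L : Type*} [CommRing L]

/-- the order preserving injection of the natural numbers which omits `j` -/
def dl (j k : ℕ) : ℕ := if k < j then k else k + 1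

/-- the `i`-th prism simplex `(a_0, .., a_i, b_i, b_(i+1), ..)` -/
def pr (i : ℕ) (a b : ℕ → Z) (k : ℕ) : Z := if k ≤ i then a k else b (k - 1)

/-- `(a_0, .., a_(i-1), b_i, b_(i+1), ..)` -/
def mx (i : ℕ) (a b : ℕ → Z) (k : ℕ) : Z := if k < i then a k else b k

theorem pr_dl_lt {i j : ℕ} (h : j ≤ i) (a b : ℕ → Z) :
    pr (i + 1) a b ∘ dl j = pr i (a ∘ dl j) (b ∘ dl j) := by
  funext k
  simp only [Function.comp, pr, dl]
  by_cases h1 : k < j
  · rw [if_pos h1, if_pos (by omega), if_pos (by omega)]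
  · rw [if_neg h1]
    by_cases h2 : k ≤ i
    · rw [if_pos (by omega), if_pos h2]
    · rw [if_neg (by omega), if_neg h2, if_neg (by omega)]
      congr 1
      omega

theorem pr_dl_self (i : ℕ) (a b : ℕ → Z) : pr i a b ∘ dl i = mx i a b := by
  funext k
  simp only [Function.comp, pr, dl, mx]
  by_cases h1 : k < i
  · rw [if_pos h1, if_pos (by omega), if_pos h1]
  · rw [if_neg h1, if_neg (by omega), if_neg h1]
    congr 1

theorem pr_dl_succ (i : ℕ) (a b : ℕ → Z) : pr i a b ∘ dl (i + 1) = mx (i + 1) a b := by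
  funext k
  simp only [Function.comp, pr, dl, mx]
  by_cases h1 : k < i + 1
  · rw [if_pos h1, if_pos (by omega), if_pos h1]
  · rw [if_neg h1, if_neg (by omega), if_neg h1]
    congr 1

theorem pr_dl_gt {i j : ℕ} (h : i < j) (a b : ℕ → Z) :
    pr i a b ∘ dl (j + 1) = pr i (a ∘ dl j) (b ∘ dl j) := by
  funext k
  simp only [Function.comp, pr, dl]
  by_cases h1 : k ≤ i
  · rw [if_pos (show k < j + 1 by omega), if_pos (show k < j by omega), if_pos h1, if_pos h1]
  · rw [if_neg h1]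
    by_cases h2 : k < j + 1
    · rw [if_pos h2, if_neg h1, if_pos (by omega)]
    · rw [if_neg h2, if_neg (by omega), if_neg (by omega)]
      congr 1
      omega

/-- alternating double sum over the faces of the prism simplices -/
theorem prism (n : ℕ) (F : (ℕ → Z) → L) (hF : ∀ s t : ℕ → Z, (∀ k, k < n + 1 → s k = t k) → F s = F t)
    (a b : ℕ → Z) :
    ∑ i ∈ range (n + 1), (-1 : L) ^ i * ∑ j ∈ range (n + 2), (-1 : L) ^ j * F (pr i a b ∘ dl j)
      = F b - F a
        - ∑ j ∈ range (n + 1), (-1 : L) ^ j *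
            ∑ i ∈ range n, (-1 : L) ^ i * F (pr i (a ∘ dl j) (b ∘ dl j)) := by
  set G : ℕ → ℕ → L := fun i j => F (pr i (a ∘ dl j) (b ∘ dl j)) with hG
  have h1 : ∀ i ∈ range (n + 1),
      ∑ j ∈ range (n + 2), (-1 : L) ^ j * F (pr i a b ∘ dl j)
        = (∑ j ∈ range i, (-1 : L) ^ j * F (pr i a b ∘ dl j))
          + (-1 : L) ^ i * (F (mx i a b) - F (mx (i + 1) a b))
          - ∑ j ∈ Ico (i + 1) (n + 1), (-1 : L) ^ j * G i j := by
    intro i hi
    rw [mem_range] at hi
    have h2 := Finset.sum_range_add_sum_Ico (fun j => (-1 : L) ^ j * F (pr i a b ∘ dl j))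
      (show i ≤ n + 2 by omega)
    rw [← h2, Finset.sum_eq_sum_Ico_succ_bot (show i < n + 2 by omega),
      Finset.sum_eq_sum_Ico_succ_bot (show i + 1 < n + 2 by omega), pr_dl_self, pr_dl_succ]
    have h3 : ∑ j ∈ Ico (i + 1 + 1) (n + 2), (-1 : L) ^ j * F (pr i a b ∘ dl j)
        = - ∑ j ∈ Ico (i + 1) (n + 1), (-1 : L) ^ j * G i j := by
      rw [show n + 2 = n + 1 + 1 from rfl,
        ← Finset.sum_Ico_add' (fun j => (-1 : L) ^ j * F (pr i a b ∘ dl j)) (i + 1) (n + 1) 1,
        ← Finset.sum_neg_distrib]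
      refine sum_congr rfl fun j hj => ?_
      rw [mem_Ico] at hj
      rw [pr_dl_gt (by omega), pow_succ]
      ring
    rw [h3, pow_succ]
    ring
  rw [sum_congr rfl (fun i hi => by rw [h1 i hi])]
  have h4 : ∀ i, (-1 : L) ^ i * ((∑ j ∈ range i, (-1 : L) ^ j * F (pr i a b ∘ dl j))
          + (-1 : L) ^ i * (F (mx i a b) - F (mx (i + 1) a b))
          - ∑ j ∈ Ico (i + 1) (n + 1), (-1 : L) ^ j * G i j)
      = (-1 : L) ^ i * (∑ j ∈ range i, (-1 : L) ^ j * F (pr i a b ∘ dl j))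
        + (F (mx i a b) - F (mx (i + 1) a b))
        - (-1 : L) ^ i * ∑ j ∈ Ico (i + 1) (n + 1), (-1 : L) ^ j * G i j := by
    intro i
    have : (-1 : L) ^ i * (-1 : L) ^ i = 1 := by rw [← mul_pow]; simp
    linear_combination (F (mx i a b) - F (mx (i + 1) a b)) * this
  rw [sum_congr rfl (fun i _ => h4 i), sum_sub_distrib, sum_add_distrib]
  have h5 : ∑ i ∈ range (n + 1), (F (mx i a b) - F (mx (i + 1) a b)) = F b - F a := by
    have h6 : ∀ N : ℕ, ∑ i ∈ range N, (F (mx i a b) - F (mx (i + 1) a b))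
        = F (mx 0 a b) - F (mx N a b) := by
      intro N
      induction N with
      | zero => simp
      | succ N ih => rw [sum_range_succ, ih]; ring
    rw [h6]
    congr 1
    apply hF
    intro k hk
    simp only [mx]
    rw [if_pos hk]
  have h7 : ∑ i ∈ range (n + 1), (-1 : L) ^ i * (∑ j ∈ range i, (-1 : L) ^ j * F (pr i a b ∘ dl j))
      = - ∑ i ∈ range n, (-1 : L) ^ i * ∑ j ∈ range (i + 1), (-1 : L) ^ j * G i j := by
    rw [sum_range_succ', ← sum_neg_distrib]
    simp only [range_zero, sum_empty, mul_zero, add_zero]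
    refine sum_congr rfl fun i _ => ?_
    have h8 : ∑ j ∈ range (i + 1), (-1 : L) ^ j * F (pr (i + 1) a b ∘ dl j)
        = ∑ j ∈ range (i + 1), (-1 : L) ^ j * G i j := by
      refine sum_congr rfl fun j hj => ?_
      rw [mem_range] at hj
      rw [pr_dl_lt (by omega)]
    rw [h8, pow_succ]
    ring
  have h9 : ∑ i ∈ range (n + 1), (-1 : L) ^ i * ∑ j ∈ Ico (i + 1) (n + 1), (-1 : L) ^ j * G i j
      = ∑ i ∈ range n, (-1 : L) ^ i * ∑ j ∈ Ico (i + 1) (n + 1), (-1 : L) ^ j * G i j := by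
    rw [sum_range_succ]
    simp
  have h10 : ∑ j ∈ range (n + 1), (-1 : L) ^ j * ∑ i ∈ range n, (-1 : L) ^ i * G i j
      = ∑ i ∈ range n, (-1 : L) ^ i * ∑ j ∈ range (n + 1), (-1 : L) ^ j * G i j := by
    simp only [mul_sum]
    rw [sum_comm]
    refine sum_congr rfl fun i _ => sum_congr rfl fun j _ => ?_
    ring
  rw [h5, h7, h9, h10]
  have h11 : ∀ i ∈ range n, (-1 : L) ^ i * ∑ j ∈ range (n + 1), (-1 : L) ^ j * G i j
      = (-1 : L) ^ i * ∑ j ∈ range (i + 1), (-1 : L) ^ j * G i j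
        + (-1 : L) ^ i * ∑ j ∈ Ico (i + 1) (n + 1), (-1 : L) ^ j * G i j := by
    intro i hi
    rw [mem_range] at hi
    rw [← mul_add, Finset.sum_range_add_sum_Ico _ (show i + 1 ≤ n + 1 by omega)]
  rw [sum_congr rfl h11, sum_add_distrib]
  ring

theorem val_succAbove {n : ℕ} (j : Fin (n + 1)) (i : Fin n) : ((j.succAbove i : Fin (n + 1)) : ℕ) = dl j i := by
  simp only [Fin.succAbove, dl, Fin.lt_def]
  split_ifs <;> simp_all

theorem IsCoc.sum_dl {n : ℕ} {F : (Fin (n + 1) → Z) → L} (hF : IsCoc F) (s : ℕ → Z) :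
    ∑ j ∈ range (n + 2), (-1 : L) ^ j * F (fun k => (s ∘ dl j) k) = 0 := by
  rw [Finset.sum_range]
  rw [← hF (fun k => s k)]
  refine sum_congr rfl fun j _ => ?_
  congr 2
  funext i
  simp only [Function.comp, val_succAbove]

/-- extension of a tuple to a sequence -/
def ext [Inhabited Z] {n : ℕ} (z : Fin n → Z) (k : ℕ) : Z := if h : k < n then z ⟨k, h⟩ else default

theorem ext_of_lt [Inhabited Z] {n : ℕ} (z : Fin n → Z) {k : ℕ} (h : k < n) : ext z k = z ⟨k, h⟩ :=
  dif_pos h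

/-- the homotopy term of two tuples -/
def hom [Inhabited Z] {n : ℕ} (φ : (Fin (n + 1) → Z) → L) (a b : Fin n → Z) : L :=
  ∑ i ∈ range n, (-1 : L) ^ i * φ (fun k => pr i (ext a) (ext b) k)

theorem pr_congr {n i : ℕ} (hi : i < n) {a a' b b' : ℕ → Z} (ha : ∀ k, k < n → a k = a' k)
    (hb : ∀ k, k < n → b k = b' k) (k : ℕ) (hk : k < n + 1) : pr i a b k = pr i a' b' k := by
  simp only [pr]
  split_ifs with h
  · exact ha k (by omega)
  · exact hb (k - 1) (by omega)

/-- the prism identity for tuples and a cocycle -/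
theorem hom_face [Inhabited Z] {n : ℕ} {φ : (Fin (n + 1) → Z) → L} (hφ : IsCoc φ)
    (a b : Fin (n + 1) → Z) :
    φ b - φ a = ∑ j : Fin (n + 1), (-1 : L) ^ (j : ℕ) *
      hom φ (fun k => a (j.succAbove k)) (fun k => b (j.succAbove k)) := by
  have h := prism n (fun s => φ (fun k : Fin (n + 1) => s k)) (by
    intro s t hst
    congr 1
    funext k
    exact hst k k.2) (ext a) (ext b)
  rw [sum_eq_zero (fun i _ => by rw [hφ.sum_dl, mul_zero])] at h
  have h1 : ∀ c : Fin (n + 1) → Z, φ (fun k : Fin (n + 1) => ext c k) = φ c := by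
    intro c
    congr 1
    funext k
    rw [ext_of_lt c k.2]
  rw [h1, h1] at h
  rw [eq_comm, sub_eq_zero] at h
  rw [h, Finset.sum_range]
  refine sum_congr rfl fun j _ => ?_
  congr 1
  rw [hom]
  refine sum_congr rfl fun i hi => ?_
  rw [mem_range] at hi
  congr 2
  funext k
  have h2 : ∀ c : Fin (n + 1) → Z, ∀ k, k < n → (ext c ∘ dl j) k = ext (fun k => c (j.succAbove k)) k := by
    intro c k hk
    rw [ext_of_lt _ hk, Function.comp]
    have h3 : dl j k = ((j.succAbove ⟨k, hk⟩ : Fin (n + 1)) : ℕ) := by rw [val_succAbove]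
    rw [h3, ext_of_lt c (j.succAbove ⟨k, hk⟩).2]
  exact pr_congr hi (h2 a) (h2 b) k k.2

end prism

section av

variable {Z L : Type*} [Group Z] [CommRing L]

/-- the average of `φ` over a product of finite sets, with the weights `D / |N i|` -/
noncomputable def av0 {n : ℕ} (D : ℕ) (N : Fin n → Finset Z) (φ : (Fin n → Z) → L) : L :=
  ∑ y : (i : Fin n) → {m // m ∈ N i}, (∏ i, ((D / (N i).card : ℕ) : L)) * φ (fun i => (y i : Z))

theorem av0_map {n : ℕ} (D : ℕ) (N : Fin n → Finset Z) (g : Fin n → Z) (φ : (Fin n → Z) → L) :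
    av0 D (fun i => (N i).map (Equiv.mulLeft (g i)).toEmbedding) φ
      = av0 D N (fun y => φ (fun i => g i * y i)) := by
  rw [av0, av0]
  symm
  refine Fintype.sum_equiv (Equiv.piCongrRight fun i => ((Equiv.mulLeft (g i)).subtypeEquiv
    (p := fun m => m ∈ N i) (q := fun m => m ∈ (N i).map (Equiv.mulLeft (g i)).toEmbedding) (by
      intro a
      simp)))
    _ _ fun y => ?_
  simp

/-- summing over one more coordinate multiplies by `D` -/
theorem av0_succAbove {n : ℕ} (D : ℕ) (N : Fin (n + 1) → Finset Z) (j : Fin (n + 1))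
    (hN : (N j).card ∣ D) (φ : (Fin n → Z) → L) :
    av0 D N (fun y => φ (fun i => y (j.succAbove i)))
      = (D : L) * av0 D (fun i => N (j.succAbove i)) φ := by
  rw [av0, av0, ← (Fin.insertNthEquiv (fun i => {m // m ∈ N i}) j).sum_comp, Fintype.sum_prod_type]
  simp only [Fin.insertNthEquiv_apply, Fin.insertNth_apply_succAbove, Fin.prod_univ_succAbove _ j]
  rw [sum_const, nsmul_eq_mul, card_univ, Fintype.card_coe, mul_sum, mul_sum]
  refine sum_congr rfl fun y _ => ?_
  have h : ((N j).card : L) * ((D / (N j).card : ℕ) : L) = (D : L) := by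
    rw [← Nat.cast_mul, Nat.mul_div_cancel' hN]
  linear_combination ((∏ i, ((D / (N (j.succAbove i)).card : ℕ) : L)) * φ fun i => (y i : Z)) * h

theorem av0_const {n : ℕ} (D : ℕ) (N : Fin n → Finset Z) (hN : ∀ i, (N i).card ∣ D) (c : L) :
    av0 D N (fun _ => c) = (D : L) ^ n * c := by
  induction n with
  | zero => simp [av0]
  | succ n ih =>
      have h := av0_succAbove D N 0 (hN 0) (fun _ : Fin n → Z => c)
      rw [h, ih _ (fun i => hN _)]
      ring

theorem av0_add {n : ℕ} (D : ℕ) (N : Fin n → Finset Z) (φ ψ : (Fin n → Z) → L) :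
    av0 D N (fun y => φ y + ψ y) = av0 D N φ + av0 D N ψ := by
  simp only [av0, mul_add, sum_add_distrib]

theorem av0_sub {n : ℕ} (D : ℕ) (N : Fin n → Finset Z) (φ ψ : (Fin n → Z) → L) :
    av0 D N (fun y => φ y - ψ y) = av0 D N φ - av0 D N ψ := by
  simp only [av0, mul_sub, sum_sub_distrib]

theorem av0_mul {n : ℕ} (D : ℕ) (N : Fin n → Finset Z) (c : L) (φ : (Fin n → Z) → L) :
    av0 D N (fun y => c * φ y) = c * av0 D N φ := by
  simp only [av0, mul_sum]
  exact sum_congr rfl fun y _ => by ring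

theorem av0_sum {n : ℕ} {κ : Type*} (D : ℕ) (N : Fin n → Finset Z) (s : Finset κ)
    (φ : κ → (Fin n → Z) → L) :
    av0 D N (fun y => ∑ k ∈ s, φ k y) = ∑ k ∈ s, av0 D N (φ k) := by
  simp only [av0, mul_sum]
  exact sum_comm

end av

section main

variable {Z X L : Type*} [Group Z] [MulAction Z X] [CommRing L]

/-- the averaged cochain -/
noncomputable def av {n : ℕ} (D : ℕ) (M : X → Finset Z) (φ : (Fin n → Z) → L) (x : Fin n → X) : L :=
  av0 D (fun i => M (x i)) φ

theorem av_coc {n : ℕ} {D : ℕ} (hL : ∀ x : L, (D : L) * x = 0 → x = 0) {M : X → Finset Z}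
    (hM : ∀ x, (M x).card ∣ D) {φ : (Fin (n + 1) → Z) → L} (hφ : IsCoc φ) : IsCoc (av D M φ) := by
  intro x
  apply hL
  rw [mul_sum]
  have h1 : ∀ j : Fin (n + 2), (D : L) * ((-1 : L) ^ (j : ℕ) * av D M φ (fun k => x (j.succAbove k)))
      = av0 D (fun i => M (x i)) (fun y => (-1 : L) ^ (j : ℕ) * φ (fun k => y (j.succAbove k))) := by
    intro j
    rw [av0_mul, av0_succAbove D (fun i => M (x i)) j (hM _) φ, av]
    ring
  rw [sum_congr rfl (fun j _ => h1 j), ← av0_sum]
  have h2 : (fun y : Fin (n + 2) → Z => ∑ j : Fin (n + 2), (-1 : L) ^ (j : ℕ) * φ (fun k => y (j.succAbove k)))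
      = fun _ => 0 := by
    funext y
    exact hφ y
  rw [h2]
  simp [av0]

theorem av_smul {n : ℕ} (D : ℕ) {M : X → Finset Z}
    (hM : ∀ (g : Z) (x : X), M (g • x) = (M x).map (Equiv.mulLeft g).toEmbedding)
    {φ : (Fin n → Z) → L} (hφ : ∀ (g : Z) (z : Fin n → Z), φ (fun i => g * z i) = φ z)
    (g : Z) (x : Fin n → X) : av D M φ (fun i => g • x i) = av D M φ x := by
  simp only [av, hM]
  rw [av0_map D (fun i => M (x i)) (fun _ => g) φ]
  simp only [hφ]

theorem av_orbit {n : ℕ} {D : ℕ} {M : X → Finset Z}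
    (hM : ∀ (g : Z) (x : X), M (g • x) = (M x).map (Equiv.mulLeft g).toEmbedding)
    (hD : ∀ x, (M x).card ∣ D)
    {φ : (Fin (n + 1) → Z) → L} (hc : IsCoc φ) (hφ : ∀ (g : Z) (z : Fin (n + 1) → Z), φ (fun i => g * z i) = φ z)
    (x : X) : ∃ K : (Fin n → Z) → L, (∀ (g : Z) (z : Fin n → Z), K (fun i => g * z i) = K z) ∧
      ∀ z : Fin (n + 1) → Z, av D M φ (fun i => z i • x) - (D : L) ^ (n + 1) * φ z
        = ∑ j : Fin (n + 1), (-1 : L) ^ (j : ℕ) * K (fun k => z (j.succAbove k)) := by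
  letI : Inhabited Z := ⟨1⟩
  refine ⟨fun z => (D : L) * av0 D (fun _ => M x) (fun y => hom φ z (fun i => z i * y i)), ?_, ?_⟩
  · intro g z
    have h0 : (fun y : Fin n → Z => hom φ (fun i => g * z i) (fun i => g * z i * y i))
        = fun y => hom φ z (fun i => z i * y i) := by
      funext y
      unfold hom
      refine sum_congr rfl fun i hi => ?_
      rw [mem_range] at hi
      congr 1
      rw [← hφ g (fun k => pr i (ext z) (ext (fun i => z i * y i)) k)]
      congr 1
      funext k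
      simp only [pr]
      split_ifs with h
      · have hk : (k : ℕ) < n := by omega
        rw [ext_of_lt _ hk, ext_of_lt _ hk]
      · have hk : (k : ℕ) - 1 < n := by omega
        rw [ext_of_lt _ hk, ext_of_lt _ hk, mul_assoc]
    show (D : L) * av0 D (fun _ => M x)
      (fun y => hom φ (fun i => g * z i) (fun i => g * z i * y i)) = _
    rw [h0]
  · intro z
    have h1 : av D M φ (fun i => z i • x) = av0 D (fun _ => M x) (fun y => φ (fun i => z i * y i)) := by
      simp only [av, hM]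
      rw [av0_map D (fun _ => M x) z φ]
    have h2 : (D : L) ^ (n + 1) * φ z = av0 D (fun _ : Fin (n + 1) => M x) (fun _ => φ z) :=
      (av0_const D _ (fun _ => hD x) _).symm
    rw [h1, h2, ← av0_sub]
    have h3 : (fun y : Fin (n + 1) → Z => φ (fun i => z i * y i) - φ z) = fun y =>
        ∑ j : Fin (n + 1), (-1 : L) ^ (j : ℕ) * hom φ (fun k => z (j.succAbove k))
          (fun k => z (j.succAbove k) * y (j.succAbove k)) := by
      funext y
      exact hom_face hc z (fun i => z i * y i)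
    rw [h3, av0_sum]
    refine sum_congr rfl fun j _ => ?_
    rw [av0_mul, av0_succAbove D (fun _ => M x) j (hD x)
      (fun y => hom φ (fun k => z (j.succAbove k)) (fun k => z (j.succAbove k) * y k))]

/-- the elements which move `x` inside its `σ`-orbit -/
def stb (Z : Type*) {X : Type*} [Group Z] [MulAction Z X] (σ : Equiv.Perm X) (x : X) : Set Z :=
  {z | ∃ k : ℤ, z • x = (σ ^ k) x}

theorem zpow_smul_comm {σ : Equiv.Perm X} (hσ : ∀ (g : Z) (x : X), σ (g • x) = g • σ x) (k : ℤ) (g : Z)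
    (x : X) : (σ ^ k) (g • x) = g • (σ ^ k) x := by
  have hinv : ∀ (g : Z) (x : X), σ⁻¹ (g • x) = g • σ⁻¹ x := by
    intro g x
    rw [Equiv.Perm.inv_eq_iff_eq, hσ]
    congr 1
    exact (σ.apply_symm_apply x).symm
  have hpow : ∀ (τ : Equiv.Perm X), (∀ (g : Z) (x : X), τ (g • x) = g • τ x) →
      ∀ (n : ℕ) (x : X), (τ ^ n) (g • x) = g • (τ ^ n) x := by
    intro τ hτ n
    induction n with
    | zero => intro x; simp
    | succ n ih => intro x; rw [pow_succ, Equiv.Perm.mul_apply, hτ, ih, Equiv.Perm.mul_apply]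
  obtain ⟨n, rfl | rfl⟩ := k.eq_nat_or_neg
  · simpa using hpow σ hσ n x
  · have h := hpow σ⁻¹ hinv n x
    simpa using h

theorem exists_mset {σ : Equiv.Perm X} (hσ : ∀ (g : Z) (x : X), σ (g • x) = g • σ x) {D : ℕ}
    (hfin : ∀ x : X, (stb Z σ x).Finite) (hcard : ∀ x : X, (stb Z σ x).ncard ∣ D) :
    ∃ M : X → Finset Z, (∀ (g : Z) (x : X), M (g • x) = (M x).map (Equiv.mulLeft g).toEmbedding) ∧
      (∀ x, M (σ x) = M x) ∧ (∀ x, (M x).card ∣ D) ∧ ∀ x, (M x).Nonempty := by
  classical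
  have hc := zpow_smul_comm hσ
  let S : Setoid X :=
    { r := fun x y => ∃ (g : Z) (k : ℤ), y = (σ ^ k) (g • x)
      iseqv := by
        refine ⟨fun x => ⟨1, 0, by simp⟩, ?_, ?_⟩
        · rintro x y ⟨g, k, rfl⟩
          refine ⟨g⁻¹, -k, ?_⟩
          rw [hc, hc, hc, ← Equiv.Perm.mul_apply, ← zpow_add, inv_smul_smul]
          simp
        · rintro x y z ⟨g, k, rfl⟩ ⟨h, l, rfl⟩
          refine ⟨h * g, l + k, ?_⟩
          rw [zpow_add, Equiv.Perm.mul_apply, hc k, hc k, mul_smul] }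
  let r : X → X := fun x => (Quotient.mk S x).out
  have hr : ∀ x, ∃ (g : Z) (k : ℤ), x = (σ ^ k) (g • r x) := fun x =>
    Quotient.exact (Quotient.out_eq (Quotient.mk S x))
  have hrg : ∀ (g : Z) (x : X), r (g • x) = r x := by
    intro g x
    have : Quotient.mk S (g • x) = Quotient.mk S x :=
      Quotient.sound (S.symm ⟨g, 0, by simp⟩)
    simp only [r, this]
  have hrs : ∀ x : X, r (σ x) = r x := by
    intro x
    have : Quotient.mk S (σ x) = Quotient.mk S x :=
      Quotient.sound (S.symm ⟨1, 1, by simp⟩)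
    simp only [r, this]
  let M' : X → Set Z := fun x => {g | ∃ k : ℤ, x = (σ ^ k) (g • r x)}
  have hM' : ∀ x, ∃ g0 : Z, M' x = (Equiv.mulLeft g0) '' (stb Z σ (r x)) := by
    intro x
    obtain ⟨g0, k0, h0⟩ := hr x
    refine ⟨g0, ?_⟩
    ext h
    rw [Equiv.image_eq_preimage_symm]
    simp only [M', Set.mem_setOf_eq, Set.mem_preimage, stb, Equiv.mulLeft_symm, Equiv.coe_mulLeft]
    constructor
    · rintro ⟨k, hk⟩
      refine ⟨k0 - k, ?_⟩
      have h1 : (σ ^ k) (h • r x) = (σ ^ k0) (g0 • r x) := by rw [← hk, ← h0]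
      rw [sub_eq_add_neg, add_comm, zpow_add, Equiv.Perm.mul_apply, mul_smul, inv_smul_eq_iff, ← hc,
        ← hc, ← h1, ← Equiv.Perm.mul_apply, ← zpow_add]
      simp
    · rintro ⟨k, hk⟩
      refine ⟨k0 - k, ?_⟩
      rw [mul_smul, inv_smul_eq_iff, ← hc] at hk
      rw [hk, ← Equiv.Perm.mul_apply, ← zpow_add, sub_add_cancel, ← h0]
  have hfin' : ∀ x, (M' x).Finite := by
    intro x
    obtain ⟨g0, h0⟩ := hM' x
    rw [h0]
    exact (hfin _).image _
  refine ⟨fun x => (hfin' x).toFinset, ?_, ?_, ?_, ?_⟩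
  · intro g x
    ext h
    simp only [Set.Finite.mem_toFinset, mem_map_equiv, Equiv.mulLeft_symm, Equiv.coe_mulLeft, M',
      Set.mem_setOf_eq, hrg]
    constructor
    · rintro ⟨k, hk⟩
      exact ⟨k, by rw [mul_smul, hc, ← hk, inv_smul_smul]⟩
    · rintro ⟨k, hk⟩
      refine ⟨k, ?_⟩
      rw [mul_smul, hc] at hk
      nth_rw 1 [hk]
      rw [smul_inv_smul]
  · intro x
    ext h
    simp only [Set.Finite.mem_toFinset, M', Set.mem_setOf_eq, hrs]
    constructor
    · rintro ⟨k, hk⟩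
      refine ⟨k - 1, ?_⟩
      rw [sub_eq_add_neg, add_comm, zpow_add, Equiv.Perm.mul_apply, ← hk]
      simp
    · rintro ⟨k, hk⟩
      refine ⟨1 + k, ?_⟩
      rw [zpow_add, Equiv.Perm.mul_apply, ← hk]
      simp
  · intro x
    obtain ⟨g0, h0⟩ := hM' x
    rw [← Set.ncard_eq_toFinset_card _ (hfin' x), h0,
      Set.ncard_image_of_injective _ (Equiv.injective _)]
    exact hcard _
  · intro x
    obtain ⟨g0, k0, h0⟩ := hr x
    exact ⟨g0, by rw [Set.Finite.mem_toFinset]; exact ⟨k0, h0⟩⟩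

/-- **Step (3) of note 4122.** -/
theorem exists_average {σ : Equiv.Perm X} (hσ : ∀ (g : Z) (x : X), σ (g • x) = g • σ x) {D : ℕ}
    (hfin : ∀ x : X, (stb Z σ x).Finite) (hcard : ∀ x : X, (stb Z σ x).ncard ∣ D)
    (hL : ∀ x : L, (D : L) * x = 0 → x = 0) {n : ℕ} {φ : (Fin (n + 1) → Z) → L} (hc : IsCoc φ)
    (hφ : ∀ (g : Z) (z : Fin (n + 1) → Z), φ (fun i => g * z i) = φ z) :
    ∃ Φ : (Fin (n + 1) → X) → L, IsCoc Φ ∧
      (∀ (g : Z) (x : Fin (n + 1) → X), Φ (fun i => g • x i) = Φ x) ∧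
      (∀ x : Fin (n + 1) → X, Φ (fun i => σ (x i)) = Φ x) ∧
      ∀ x : X, ∃ K : (Fin n → Z) → L, (∀ (g : Z) (z : Fin n → Z), K (fun i => g * z i) = K z) ∧
        ∀ z : Fin (n + 1) → Z, Φ (fun i => z i • x) - (D : L) ^ (n + 1) * φ z
          = ∑ j : Fin (n + 1), (-1 : L) ^ (j : ℕ) * K (fun k => z (j.succAbove k)) := by
  obtain ⟨M, h1, h2, h3, _⟩ := exists_mset hσ hfin hcard
  refine ⟨av D M φ, av_coc hL h3 hc, av_smul D h1 hφ, ?_, av_orbit h1 h3 hc hφ⟩
  intro x
  simp only [av, h2]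

end main

end FQ
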