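import Mathlib

/-!
# The counting lemma of PROJECT FQ (note 4122, step (1))

`I` is a finite set with `p ^ m` elements, `s` a permutation of `I` for which every element is
`s ^ k i0`, and `T` a function of finite subsets of `I` with values in a commutative ring `L` without
`p`-torsion in which the natural numbers prime to `p` are units. If `T (s S) = T S` for all `S`, then
`p ^ (m + 1)` divides `∑_S p ^ |S| T S - T ∅`.
-/

open Finset

namespace FQ

section

variable {L : Type*} [CommRing L] {I : Type*} [Fintype I] [DecidableEq I]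

/-- invariance under all powers of `s` -/
theorem inv_pow (s : Equiv.Perm I) (T : Finset I → L)
    (hT : ∀ S : Finset I, T (S.map s.toEmbedding) = T S) (k : ℕ) (S : Finset I) :
    T (S.map (s ^ k).toEmbedding) = T S := by
  induction k generalizing S with
  | zero =>
      congr 1
      ext x
      simp only [pow_zero, mem_map_equiv]
      exact Iff.rfl
  | succ k ih =>
      have : S.map (s ^ (k + 1)).toEmbedding = (S.map (s ^ k).toEmbedding).map s.toEmbedding := by
        ext x
        simp only [pow_succ', mem_map_equiv]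
        exact Iff.rfl
      rw [this, hT, ih]

/-- the sum over the sets with `j` elements which contain `i` does not depend on `i` -/
theorem sum_mem_eq (s : Equiv.Perm I) (T : Finset I → L)
    (hT : ∀ S : Finset I, T (S.map s.toEmbedding) = T S) (j : ℕ) (i0 i : I)
    (hi : ∃ k : ℕ, (s ^ k) i0 = i) :
    ∑ S ∈ (powersetCard j (univ : Finset I)).filter (fun S => i ∈ S), T S
      = ∑ S ∈ (powersetCard j (univ : Finset I)).filter (fun S => i0 ∈ S), T S := by
  obtain ⟨k, rfl⟩ := hi
  symm
  refine Finset.sum_bij' (fun S _ => S.map (s ^ k).toEmbedding)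
    (fun S _ => S.map (s ^ k).symm.toEmbedding) ?_ ?_ ?_ ?_ ?_
  · intro S hS
    simp only [mem_filter, mem_powersetCard, subset_univ, true_and, card_map] at hS ⊢
    exact ⟨hS.1, mem_map_of_mem _ hS.2⟩
  · intro S hS
    simp only [mem_filter, mem_powersetCard, subset_univ, true_and, card_map] at hS ⊢
    refine ⟨hS.1, ?_⟩
    rw [mem_map]
    exact ⟨_, hS.2, by simp⟩
  · intro S _
    ext x
    simp
  · intro S _
    ext x
    simp
  · intro S _
    exact (inv_pow s T hT k S).symm

/-- double counting: `j c_j = |I| * (the part of the sets containing i0)` -/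
theorem mul_sum_card (s : Equiv.Perm I) (T : Finset I → L)
    (hT : ∀ S : Finset I, T (S.map s.toEmbedding) = T S) (i0 : I)
    (hs : ∀ i : I, ∃ k : ℕ, (s ^ k) i0 = i) (j : ℕ) :
    (j : L) * ∑ S ∈ powersetCard j (univ : Finset I), T S
      = (Fintype.card I : L) *
        ∑ S ∈ (powersetCard j (univ : Finset I)).filter (fun S => i0 ∈ S), T S := by
  have h1 : (j : L) * ∑ S ∈ powersetCard j (univ : Finset I), T S
      = ∑ S ∈ powersetCard j (univ : Finset I), ∑ i : I, if i ∈ S then T S else 0 := by
    rw [mul_sum]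
    refine sum_congr rfl fun S hS => ?_
    rw [mem_powersetCard] at hS
    rw [← Finset.sum_filter, sum_const, nsmul_eq_mul]
    congr 2
    rw [← hS.2]
    congr 1
    ext x
    simp
  rw [h1, sum_comm]
  have h2 : ∀ i ∈ (univ : Finset I),
      (∑ S ∈ powersetCard j (univ : Finset I), if i ∈ S then T S else 0)
        = ∑ S ∈ (powersetCard j (univ : Finset I)).filter (fun S => i0 ∈ S), T S := by
    intro i _
    rw [← Finset.sum_filter]
    exact sum_mem_eq s T hT j i0 i (hs i)
  rw [sum_congr rfl h2, sum_const, nsmul_eq_mul, card_univ]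

/-- division with a factor prime to `p` -/
theorem dvd_pow_mul {p : ℕ} (hp : p.Prime) (hL : ∀ x : L, (p : L) * x = 0 → x = 0)
    (hu : ∀ n : ℕ, ¬ p ∣ n → IsUnit (n : L)) {m j : ℕ} (hj : j ≠ 0) {c d : L}
    (h : (j : L) * c = (p : L) ^ m * d) : (p : L) ^ (m + 1) ∣ (p : L) ^ j * c := by
  obtain ⟨v, u, hpu, hju⟩ := Nat.exists_eq_pow_mul_and_not_dvd hj p hp.ne_one
  have hv : v + 1 ≤ j := by
    have h1 : p ^ v ≤ j := by
      rw [hju]
      exact Nat.le_mul_of_pos_right _ (Nat.pos_of_ne_zero (by rintro rfl; simp at hpu))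
    exact (Nat.lt_pow_self hp.one_lt).trans_le h1
  have hinj : ∀ (n : ℕ) (x : L), (p : L) ^ n * x = 0 → x = 0 := by
    intro n
    induction n with
    | zero => intro x hx; simpa using hx
    | succ n ih =>
        intro x hx
        apply ih
        apply hL
        rw [← hx]; ring
  by_cases hvm : v ≤ m
  · obtain ⟨w, rfl⟩ := Nat.exists_eq_add_of_le hvm
    have h3 : (u : L) * c = (p : L) ^ w * d := by
      have h4 : (p : L) ^ v * ((u : L) * c - (p : L) ^ w * d) = 0 := by
        have h5 : (j : L) = (p : L) ^ v * (u : L) := by rw [hju]; push_cast; ring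
        rw [h5, pow_add] at h
        rw [mul_sub, ← mul_assoc, h]; ring
      exact sub_eq_zero.mp (hinj v _ h4)
    obtain ⟨U, hU⟩ := hu u hpu
    have h6 : c = (p : L) ^ w * (((U⁻¹ : Lˣ) : L) * d) := by
      have h7 : ((U⁻¹ : Lˣ) : L) * ((u : L) * c) = c := by
        rw [← hU, ← mul_assoc, Units.inv_mul, one_mul]
      rw [← h7, h3]; ring
    rw [h6]
    obtain ⟨r, rfl⟩ := Nat.exists_eq_add_of_le hv
    refine ⟨(p : L) ^ r * (((U⁻¹ : Lˣ) : L) * d), ?_⟩
    ring
  · have hle : m + 1 ≤ j := by omega
    exact Dvd.dvd.mul_right (pow_dvd_pow _ hle) _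

/-- **The counting lemma.** -/
theorem dvd_sum_sub {p m : ℕ} (hp : p.Prime) (hL : ∀ x : L, (p : L) * x = 0 → x = 0)
    (hu : ∀ n : ℕ, ¬ p ∣ n → IsUnit (n : L)) (hcard : Fintype.card I = p ^ m)
    (s : Equiv.Perm I) (i0 : I) (hs : ∀ i : I, ∃ k : ℕ, (s ^ k) i0 = i)
    (T : Finset I → L) (hT : ∀ S : Finset I, T (S.map s.toEmbedding) = T S) :
    (p : L) ^ (m + 1) ∣ (∑ S : Finset I, (p : L) ^ S.card * T S) - T ∅ := by
  have h0 : (∑ S : Finset I, (p : L) ^ S.card * T S)
      = ∑ j ∈ range (Fintype.card I + 1),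
          (p : L) ^ j * ∑ S ∈ powersetCard j (univ : Finset I), T S := by
    have h1 := Finset.sum_powerset (univ : Finset I) (fun S => (p : L) ^ S.card * T S)
    rw [Finset.powerset_univ, card_univ] at h1
    rw [h1]
    refine sum_congr rfl fun j _ => ?_
    rw [mul_sum]
    refine sum_congr rfl fun S hS => ?_
    rw [mem_powersetCard] at hS
    rw [hS.2]
  rw [h0, sum_range_succ']
  have h2 : (p : L) ^ 0 * ∑ S ∈ powersetCard 0 (univ : Finset I), T S = T ∅ := by
    simp
  rw [h2, add_sub_cancel_right]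
  refine dvd_sum fun j _ => ?_
  have h3 := mul_sum_card s T hT i0 hs (j + 1)
  rw [hcard, Nat.cast_pow] at h3
  exact dvd_pow_mul hp hL hu (Nat.succ_ne_zero j) h3

end

end FQ
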